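import Mathlib
import Pool.Agent.Helper344.Blum9
import Pool.Agent.Helper344.BlumEx

set_option autoImplicit false

namespace Pool.Agent.Results.MP_f7ced4_lc.NonHelping

open Pool.Agent.Helper344.Blum

/-- `φ_i^X = c_A`: with oracle `X`, program `i` computes the characteristic function of `A`. -/
def Computes (M : RelBlum) (X : ℕ → Bool) (i : ℕ) (A : ℕ → Bool) : Prop :=
  ∀ x, (A x).toNat ∈ M.φ i X x

/-- `Φ_i^X >_io t`. -/
def GtIO (M : RelBlum) (X : ℕ → Bool) (i : ℕ) (t : ℕ → ℕ) : Prop :=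
  ∀ N, ∃ x, N ≤ x ∧ ∃ y ∈ M.Φ i X x, t x < y

/-- `Φ_i^X >_ae t`. -/
def GtAE (M : RelBlum) (X : ℕ → Bool) (i : ℕ) (t : ℕ → ℕ) : Prop :=
  ∃ N, ∀ x, N ≤ x → ∃ y ∈ M.Φ i X x, t x < y

/-- `Φ^X-Comp(A) >_io t`. -/
def CompIO (M : RelBlum) (X A : ℕ → Bool) (t : ℕ → ℕ) : Prop :=
  ∀ i, Computes M X i A → GtIO M X i t

/-- `Φ^X-Comp(A) >_ae t`. -/
def CompAE (M : RelBlum) (X A : ℕ → Bool) (t : ℕ → ℕ) : Prop :=
  ∀ i, Computes M X i A → GtAE M X i t

/-- Condition (i): the oracle `B` does not help the computation of `A`, up to the overhead `g`. -/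
def CondI (M : RelBlum) (g : ℕ → ℕ → ℕ) (A B : ℕ → Bool) : Prop :=
  ∀ t : ℕ → ℕ, Computable t → CompIO M emp A (fun x => g x (t x)) → CompIO M B A t

/-- Condition (ii): the oracle `A` does not help the computation of `B`. -/
def CondII (M : RelBlum) (A B : ℕ → Bool) : Prop :=
  ∀ t : ℕ → ℕ, Computable t → CompIO M emp B t → CompIO M A B t

/-- Sanity check: relative Blum measures exist (the standard numbering by r.e. sets of axioms,
with search time as complexity). -/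
theorem relBlum_nonempty : Nonempty RelBlum := ⟨stdBlum⟩

/-- For every relative Blum measure there is `g` such that for every recursive `A` there is an
arbitrarily complex recursive `B` with (i) and (ii). -/
theorem result : ∀ M : RelBlum, ∃ g : ℕ → ℕ → ℕ, Computable₂ g ∧
    ∀ A : ℕ → Bool, Computable A → ∀ s : ℕ → ℕ, Computable s →
      ∃ B : ℕ → Bool, Computable B ∧ CompAE M emp B s ∧ CondI M g A B ∧ CondII M A B := by
  intro M
  obtain ⟨g, hg, hcore⟩ := core M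
  refine ⟨g, hg, fun A hA s hs => ?_⟩
  obtain ⟨B, hB, h1, h2⟩ := hcore A hA s hs
  have hdef : ∀ (X C : ℕ → Bool) (k : ℕ), Computes M X k C → ∀ x, ∃ y, y ∈ M.Φ k X x := by
    intro X C k hk x
    exact Part.dom_iff_mem.1 ((M.dom _ _ _).1 (Part.dom_iff_mem.2 ⟨_, hk x⟩))
  refine ⟨B, hB, ?_, ?_, ?_⟩
  · intro k hk
    obtain ⟨j, _, x1, hx1⟩ := h2 k emp (Or.inl rfl) hk
    refine ⟨x1, fun x hx => ?_⟩
    obtain ⟨y, hy⟩ := hdef _ _ _ hk x
    obtain ⟨z, hz, hsz, _⟩ := hx1 x hx y hy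
    exact ⟨y, hy, by omega⟩
  · intro t _ hA' i hi N
    obtain ⟨j, hj, x1, hx1⟩ := h1 i hi
    obtain ⟨x, hx, z, hz, hlt⟩ := hA' j hj (max N x1)
    obtain ⟨y, hy⟩ := hdef _ _ _ hi x
    refine ⟨x, by omega, y, hy, ?_⟩
    by_contra hcon
    obtain ⟨z', hz', hle⟩ := hx1 x (by omega) y hy (t x) (by omega)
    rw [Part.mem_unique hz' hz] at hle
    simp only at hlt
    omega
  · intro t _ hB' k hk N
    obtain ⟨j, hj, x1, hx1⟩ := h2 k A (Or.inr rfl) hk
    obtain ⟨x, hx, z, hz, hlt⟩ := hB' j hj (max N x1)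
    obtain ⟨y, hy⟩ := hdef _ _ _ hk x
    obtain ⟨w, hw, _, y', hy', hle⟩ := hx1 x (by omega) y hy
    rw [Part.mem_unique hy' hz] at hle
    exact ⟨x, by omega, y, hy, by omega⟩

end Pool.Agent.Results.MP_f7ced4_lc.NonHelping
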